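import Pool.Agent.Helper39_F5S.TNF

set_option autoImplicit false

/-!
# Squad F5S, row PWF: the product of six tents
-/

open MeasureTheory Filter Topology

namespace Pool.Agent.F5S.H39

open Pool.Agent.BTL Pool.Agent.F5S

theorem tn_sub_int {L : ℝ} (hL : 0 < L) (a : ℝ) :
    Integrable (fun s : ℝ => tn (L⁻¹ * (a - s))) ∧ ∫ s : ℝ, tn (L⁻¹ * (a - s)) = L := by
  have h1 := (tnf.2.2.2.2.2.2.1) L hL
  have h2 : (fun s : ℝ => tn (L⁻¹ * (a - s))) = fun s => (fun u => tn (u / L)) (a - s) := by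
    funext s
    show tn (L⁻¹ * (a - s)) = tn ((a - s) / L)
    rw [div_eq_inv_mul]
  rw [h2]
  refine ⟨h1.1.comp_sub_left a, ?_⟩
  rw [integral_sub_left_eq_self (fun u => tn (u / L)) volume a]
  exact h1.2

theorem ph_sub_int {L : ℝ} (hL : 0 < L) (a : ℝ × ℝ) :
    Integrable (fun c : ℝ × ℝ => ph (L⁻¹ • (a - c))) ∧
      ∫ c : ℝ × ℝ, ph (L⁻¹ • (a - c)) = L * L := by
  have h1 := tn_sub_int hL a.1
  have h2 := tn_sub_int hL a.2
  have h3 : (fun c : ℝ × ℝ => ph (L⁻¹ • (a - c))) =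
      fun c => tn (L⁻¹ * (a.1 - c.1)) * tn (L⁻¹ * (a.2 - c.2)) := by
    funext c
    rfl
  rw [h3]
  refine ⟨h1.1.mul_prod h2.1, ?_⟩
  rw [Measure.volume_eq_prod, integral_prod_mul (fun s => tn (L⁻¹ * (a.1 - s)))
    (fun s => tn (L⁻¹ * (a.2 - s))), h1.2, h2.2]

theorem ph_nonneg (z : ℝ × ℝ) : 0 ≤ ph z := mul_nonneg (tn_nonneg _) (tn_nonneg _)

theorem ph_cont : Continuous ph :=
  (tn_cont.comp continuous_fst).mul (tn_cont.comp continuous_snd)

theorem ph_ne {L : ℝ} (hL : 0 < L) (a c : ℝ × ℝ) (h : ph (L⁻¹ • (a - c)) ≠ 0) :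
    nr (a - c) ≤ 2 * L ^ 2 := by
  have key : ∀ u : ℝ, tn (L⁻¹ * u) ≠ 0 → u ^ 2 ≤ L ^ 2 := by
    intro u hu
    have h1 : |L⁻¹ * u| < 1 := by
      by_contra h2
      exact hu (tn_zero (not_lt.1 h2))
    rw [abs_mul, abs_of_pos (inv_pos.2 hL), inv_mul_lt_iff₀ hL, mul_one] at h1
    exact sq_le_sq.2 (by rw [abs_of_pos hL]; exact h1.le)
  have h1 : tn (L⁻¹ * (a - c).1) ≠ 0 ∧ tn (L⁻¹ * (a - c).2) ≠ 0 := by
    have : tn (L⁻¹ * (a - c).1) * tn (L⁻¹ * (a - c).2) ≠ 0 := h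
    exact ⟨left_ne_zero_of_mul this, right_ne_zero_of_mul this⟩
  have h2 := key _ h1.1
  have h3 := key _ h1.2
  unfold nr
  nlinarith [h2, h3]

theorem pwf : PWFStmt := by
  intro L hL
  refine ⟨?_, ?_, ?_, ?_, ?_⟩
  · intro c x
    unfold pw
    exact mul_nonneg (inv_nonneg.2 (by positivity))
      (mul_nonneg (ph_nonneg _) (mul_nonneg (ph_nonneg _) (ph_nonneg _)))
  · unfold pw
    refine continuous_const.mul ?_
    refine (ph_cont.comp ?_).mul ((ph_cont.comp ?_).mul (ph_cont.comp ?_))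
    · fun_prop
    · fun_prop
    · fun_prop
  · intro x
    unfold pw
    refine Integrable.const_mul ?_ _
    exact (ph_sub_int hL x.1).1.mul_prod ((ph_sub_int hL x.2.1).1.mul_prod (ph_sub_int hL x.2.2).1)
  · intro x
    unfold pw
    rw [integral_const_mul]
    have h1 : ∫ c : R6, ph (L⁻¹ • (x.1 - c.1)) * (ph (L⁻¹ • (x.2.1 - c.2.1)) *
        ph (L⁻¹ • (x.2.2 - c.2.2))) = (L * L) * ((L * L) * (L * L)) := by
      have e1 := integral_prod_mul (μ := (volume : Measure (ℝ × ℝ)))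
        (ν := (volume : Measure ((ℝ × ℝ) × (ℝ × ℝ))))
        (fun c : ℝ × ℝ => ph (L⁻¹ • (x.1 - c)))
        (fun c : (ℝ × ℝ) × (ℝ × ℝ) => ph (L⁻¹ • (x.2.1 - c.1)) * ph (L⁻¹ • (x.2.2 - c.2)))
      have e2 := integral_prod_mul (μ := (volume : Measure (ℝ × ℝ)))
        (ν := (volume : Measure (ℝ × ℝ)))
        (fun c : ℝ × ℝ => ph (L⁻¹ • (x.2.1 - c)))
        (fun c : ℝ × ℝ => ph (L⁻¹ • (x.2.2 - c)))
      rw [(ph_sub_int hL x.2.1).2, (ph_sub_int hL x.2.2).2] at e2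
      rw [(ph_sub_int hL x.1).2] at e1
      refine e1.trans ?_
      congr 1
    rw [h1]
    field_simp
  · intro c x h
    unfold pw at h
    have h1 := right_ne_zero_of_mul h
    have h2 := right_ne_zero_of_mul h1
    exact ⟨ph_ne hL _ _ (left_ne_zero_of_mul h1), ph_ne hL _ _ (left_ne_zero_of_mul h2),
      ph_ne hL _ _ (right_ne_zero_of_mul h2)⟩

end Pool.Agent.F5S.H39
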