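import Pool.Agent.F5S.Stmts

set_option autoImplicit false

/-!
# Squad F5S, row TNF: the tent function
-/

open MeasureTheory Filter Topology

namespace Pool.Agent.F5S.H39

open Pool.Agent.BTL Pool.Agent.F5S

theorem tn_nonneg (u : ℝ) : 0 ≤ tn u := le_max_left _ _

theorem tn_le_one (u : ℝ) : tn u ≤ 1 := max_le zero_le_one (by linarith [abs_nonneg u])

theorem tn_neg (u : ℝ) : tn (-u) = tn u := by unfold tn; rw [abs_neg]

theorem tn_cont : Continuous tn := by
  unfold tn
  exact continuous_const.max (continuous_const.sub continuous_abs)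

theorem tn_zero {u : ℝ} (h : 1 ≤ |u|) : tn u = 0 := max_eq_left (by linarith)

theorem tn_lip (u v : ℝ) : |tn u - tn v| ≤ |u - v| := by
  unfold tn
  rw [max_comm 0 (1 - |u|), max_comm 0 (1 - |v|)]
  refine (abs_max_sub_max_le_abs _ _ _).trans ?_
  have : (1 - |u|) - (1 - |v|) = |v| - |u| := by ring
  rw [this, abs_sub_comm u v]
  exact abs_abs_sub_abs_le_abs_sub v u

theorem tn_supp : HasCompactSupport tn := by
  refine HasCompactSupport.intro (K := Set.Icc (-1) 1) isCompact_Icc ?_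
  intro x hx
  apply tn_zero
  by_contra h
  push Not at h
  rw [abs_lt] at h
  exact hx ⟨h.1.le, h.2.le⟩

theorem tn_int : Integrable tn := tn_cont.integrable_of_hasCompactSupport tn_supp

theorem integral_tn : ∫ u : ℝ, tn u = 1 := by
  have h1 : ∫ u : ℝ, tn u = ∫ u in Set.Ioc (-1 : ℝ) 1, tn u := by
    refine (setIntegral_eq_integral_of_forall_compl_eq_zero ?_).symm
    intro x hx
    apply tn_zero
    by_contra h
    push Not at h
    rw [abs_lt] at h
    exact hx ⟨h.1, h.2.le⟩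
  rw [h1, ← intervalIntegral.integral_of_le (by norm_num)]
  rw [← intervalIntegral.integral_add_adjacent_intervals (b := 0)
    (tn_cont.intervalIntegrable _ _) (tn_cont.intervalIntegrable _ _)]
  have h2 : ∫ u in (-1 : ℝ)..0, tn u = ∫ u in (-1 : ℝ)..0, (1 + u) := by
    apply intervalIntegral.integral_congr
    intro u hu
    rw [Set.uIcc_of_le (by norm_num)] at hu
    unfold tn
    rw [abs_of_nonpos hu.2, sub_neg_eq_add]
    exact max_eq_right (by linarith [hu.1])
  have h3 : ∫ u in (0 : ℝ)..1, tn u = ∫ u in (0 : ℝ)..1, (1 - u) := by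
    apply intervalIntegral.integral_congr
    intro u hu
    rw [Set.uIcc_of_le (by norm_num)] at hu
    unfold tn
    rw [abs_of_nonneg hu.1]
    exact max_eq_right (by linarith [hu.2])
  rw [h2, h3]
  rw [intervalIntegral.integral_add (by simp) (by simp),
    intervalIntegral.integral_sub (by simp) (by simp)]
  simp only [intervalIntegral.integral_const, integral_id]
  norm_num

theorem tn_part_aux (y : ℝ) (n : ℤ) (h : tn (y - n) ≠ 0) : n = ⌊y⌋ ∨ n = ⌊y⌋ + 1 := by
  have h1 : |y - n| < 1 := by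
    by_contra h2
    exact h (tn_zero (not_lt.1 h2))
  rw [abs_lt] at h1
  have h2 : (⌊y⌋ : ℝ) ≤ y := Int.floor_le y
  have h3 : y < ⌊y⌋ + 1 := Int.lt_floor_add_one y
  have h4 : (⌊y⌋ : ℤ) - 1 < n := by
    have : ((⌊y⌋ : ℤ) : ℝ) - 1 < n := by linarith
    exact_mod_cast this
  have h5 : n < (⌊y⌋ : ℤ) + 2 := by
    have : (n : ℝ) < ((⌊y⌋ : ℤ) : ℝ) + 2 := by linarith
    exact_mod_cast this
  omega

theorem tn_pair (y : ℝ) : ∑ n ∈ ({⌊y⌋, ⌊y⌋ + 1} : Finset ℤ), tn (y - n) = 1 := by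
  have h2 : (⌊y⌋ : ℝ) ≤ y := Int.floor_le y
  have h3 : y < ⌊y⌋ + 1 := Int.lt_floor_add_one y
  rw [Finset.sum_pair (by omega)]
  unfold tn
  push_cast
  rw [abs_of_nonneg (by linarith), abs_of_nonpos (by linarith),
    max_eq_right (by linarith), max_eq_right (by linarith)]
  ring

theorem tnf : TNFStmt := by
  classical
  refine ⟨fun u => ⟨tn_nonneg u, tn_le_one u⟩, tn_neg, tn_cont, fun u => tn_zero, tn_lip, tn_supp,
    ?_, ?_⟩
  · intro e he
    refine ⟨(integrable_comp_div_iff tn he.ne').2 tn_int, ?_⟩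
    rw [Measure.integral_comp_div, integral_tn, abs_of_pos he, smul_eq_mul, mul_one]
  · intro y G
    have h1 : ∑ n ∈ G, tn (y - n) = ∑ n ∈ G.filter (fun n : ℤ => tn (y - n) ≠ 0), tn (y - n) :=
      (Finset.sum_filter_ne_zero _).symm
    have h2 : ∑ n ∈ ({⌊y⌋, ⌊y⌋ + 1} : Finset ℤ), tn (y - n) =
        ∑ n ∈ ({⌊y⌋, ⌊y⌋ + 1} : Finset ℤ).filter (fun n : ℤ => tn (y - n) ≠ 0), tn (y - n) :=
      (Finset.sum_filter_ne_zero _).symm
    have h3 : ∀ n : ℤ, tn (y - n) ≠ 0 → n ∈ ({⌊y⌋, ⌊y⌋ + 1} : Finset ℤ) := by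
      intro n hn
      rw [Finset.mem_insert, Finset.mem_singleton]
      exact tn_part_aux y n hn
    refine ⟨?_, ?_⟩
    · rw [h1]
      refine le_trans ?_ (le_of_eq (tn_pair y))
      apply Finset.sum_le_sum_of_subset_of_nonneg
      · intro n hn
        exact h3 n (Finset.mem_filter.1 hn).2
      · intro n _ _
        exact tn_nonneg _
    · intro hG
      rw [h1, ← tn_pair y, h2]
      congr 1
      ext n
      rw [Finset.mem_filter, Finset.mem_filter]
      exact ⟨fun h => ⟨h3 n h.2, h.2⟩, fun h => ⟨hG n h.2, h.2⟩⟩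

end Pool.Agent.F5S.H39
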