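import Pool.Agent.Helper39_F5S.TNF

set_option autoImplicit false

/-!
# Squad F5S, row TTE: one tent over the disc
-/

open MeasureTheory Filter Topology
open scoped Pointwise

namespace Pool.Agent.F5S.H39

open Pool.Agent.BTL Pool.Agent.F5S

theorem smul_disc {T : ℝ} (hT : 0 < T) :
    T • {y : ℝ × ℝ | nr y < 1} = {x : ℝ × ℝ | nr x < T ^ 2} := by
  ext x
  rw [Set.mem_smul_set_iff_inv_smul_mem₀ hT.ne', Set.mem_setOf_eq, Set.mem_setOf_eq]
  unfold nr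
  rw [Prod.smul_fst, Prod.smul_snd, smul_eq_mul, smul_eq_mul]
  have h1 : (T⁻¹ * x.1) ^ 2 + (T⁻¹ * x.2) ^ 2 = (x.1 ^ 2 + x.2 ^ 2) / T ^ 2 := by
    field_simp
  rw [h1, div_lt_one (by positivity)]

theorem qf_smul (A : ℝ × ℝ × ℝ) (T : ℝ) (y : ℝ × ℝ) : qf A (T • y) = T ^ 2 * qf A y := by
  unfold qf
  rw [Prod.smul_fst, Prod.smul_snd, smul_eq_mul, smul_eq_mul]
  ring

theorem tte (hco : W_coarea) : TTEStmt := by
  intro M hM A hA T e s hT he
  have hT2 : (0 : ℝ) < T ^ 2 := by positivity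
  unfold tt
  have h1 := Measure.setIntegral_comp_smul_of_pos (volume : Measure (ℝ × ℝ))
    (fun x : ℝ × ℝ => tn ((qf A x - s) / e)) {y : ℝ × ℝ | nr y < 1} hT
  rw [smul_disc hT] at h1
  have hfr : Module.finrank ℝ (ℝ × ℝ) = 2 := by simp
  rw [hfr] at h1
  have h2 : ∫ x in {x : ℝ × ℝ | nr x < T ^ 2}, tn ((qf A x - s) / e) =
      T ^ 2 * ∫ y in {y : ℝ × ℝ | nr y < 1}, tn ((T ^ 2 * qf A y - s) / e) := by
    have h3 : ∫ y in {y : ℝ × ℝ | nr y < 1}, tn ((qf A (T • y) - s) / e) =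
        ∫ y in {y : ℝ × ℝ | nr y < 1}, tn ((T ^ 2 * qf A y - s) / e) := by
      simp_rw [qf_smul]
    rw [← h3, h1, smul_eq_mul, ← mul_assoc, mul_inv_cancel₀ hT2.ne', one_mul]
  have hmeas : Measurable (fun v : ℝ => tn ((T ^ 2 * v - s) / e)) :=
    tn_cont.measurable.comp (by fun_prop)
  have h4 := hco M hM A hA (fun v : ℝ => tn ((T ^ 2 * v - s) / e)) hmeas
  rw [h2, h4]
  have h5 := integral_add_left_eq_self (μ := (volume : Measure ℝ))
    (fun v : ℝ => (fun w => tn ((T ^ 2 * w - s) / e) * deriv (VV A) w) (v / T ^ 2)) s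
  have h6 := Measure.integral_comp_div (fun w : ℝ => tn ((T ^ 2 * w - s) / e) * deriv (VV A) w)
    (T ^ 2)
  rw [abs_of_pos hT2, smul_eq_mul] at h6
  rw [← h6, ← h5]
  refine integral_congr_ae (Eventually.of_forall fun u => ?_)
  show tn ((T ^ 2 * ((s + u) / T ^ 2) - s) / e) * deriv (VV A) ((s + u) / T ^ 2) =
    tn (u / e) * deriv (VV A) ((s + u) / T ^ 2)
  rw [mul_div_cancel₀ _ hT2.ne', add_sub_cancel_left]

end Pool.Agent.F5S.H39
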